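import Pool.Agent.helper35.LinPrimes.Arith
import Pool.Agent.Lib.SieveInterval
import Pool.Agent.Lib.PrimeSums

/-!
# Slopes: common definitions
-/

namespace Pool.Agent.helper96.Slope

open Finset Pool.Agent.Lib.BrunHooley

/-- `n` has no prime factor `≤ Z r = 2^(2^r)`. -/
def Rough (r n : ℕ) : Prop := ∀ p ∈ Nat.primesLE (Z r), ¬ p ∣ n

/-- sieve density. -/
noncomputable def V (r : ℕ) : ℝ := ∏ p ∈ Nat.primesLE (Z r), (1 - 1 / (p : ℝ))

open Classical in
/-- indicator of the rough numbers. -/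
noncomputable def rg (r n : ℕ) : ℝ := if Rough r n then 1 else 0

open Classical in
/-- indicator of a residue class. -/
noncomputable def cg (a : ℕ) (c : ℤ) (n : ℕ) : ℝ := if (n : ℤ) ≡ c [ZMOD a] then 1 else 0

/-- A family of moduli `≤ N` such that every `f > 1` divides at most `M` of them. -/
structure Fam (𝒜 : Finset ℕ) (N M : ℕ) : Prop where
  pos : ∀ a ∈ 𝒜, 0 < a
  le : ∀ a ∈ 𝒜, a ≤ N
  mult : ∀ f, 1 < f → #{a ∈ 𝒜 | f ∣ a} ≤ M
  one_le : 1 ≤ M

/-- The Brun-Hooley majorant of the indicator of the `Z r`-rough numbers. -/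
noncomputable def maj (r m : ℕ) : ℝ :=
  ∏ j ∈ range (r + 1), ts (blk j) (fun p => if p ∣ m then (1 : ℝ) else 0) (bpar 9 r j)

/-- The family used in the end: `a ∈ (A, 2A]`, `a ≡ 1 mod P`. -/
def fam (A P : ℕ) : Finset ℕ := {a ∈ Ioc A (2 * A) | a % P = 1}

/-- the integer `x` is a (positive) prime number. -/
def IsP (x : ℤ) : Prop := Nat.Prime x.toNat

open Classical in
/-- the number of `n ≤ N` such that all `a i * n + c` are primes. -/
noncomputable def R {k : ℕ} (a : Fin k → ℕ) (c : ℤ) (N : ℕ) : ℕ :=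
  #{n ∈ Icc 1 N | ∀ i, IsP ((a i : ℤ) * n + c)}

/-- the discriminant of a tuple. -/
def D {k : ℕ} (a : Fin k → ℕ) (c : ℤ) : ℕ :=
  c.natAbs * k.factorial * (∏ i, a i) * ∏ x ∈ (univ : Finset (Fin k)).offDiag,
    ((a x.1 : ℤ) - a x.2).natAbs

end Pool.Agent.helper96.Slope
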